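import Pool.Agent.N920.FF.Asym

/-!
# Diagonal Ramsey numbers of colourings given by symmetric matrices of low rank over finite fields

`colG f M` is the graph of the pairs `i ≠ j` with `f (M i j) = true`. `ffOrder f k r` is the largest
number of vertices of a colouring without monochromatic `K_k` in which the colour of `{i, j}` is
`f (M i j)`, where `M` is a symmetric matrix over the finite field `F` of rank at most `r`.
`adjOrder k r` is the largest number of vertices of a graph without clique and independent set of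
size `k` whose adjacency matrix has rank at most `r` over `F_2`. `ramsey k` is `R(k,k)`.
-/

namespace Pool.Agent.Results.MP_28724c_co.LowRankForms

open Filter Topology Real Pool.Agent.N920.FF

open Pool.Agent.N920.TW (NoMono ramsey)

/-- **Main result.** -/
theorem result :
    -- (1) Every finite field, every nonconstant colour rule `f`, all `k` and `r`: the largest order
    -- is `k * |F| ^ (r / 2)` up to a factor `exp (O (1 + r ^ 2 / k))`, so up to a constant factor
    -- for `r = O (√k)`.
    (∀ (F : Type) [Field F] [Fintype F], ∃ C : ℝ, 0 < C ∧ ∀ f : F → Bool, (∃ a b, f a ≠ f b) →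
      ∀ k r : ℕ, 2 ≤ k →
        |log (ffOrder f k r) - ((r / 2 : ℝ) * log (Fintype.card F) + log k)| ≤
          C * (1 + (r : ℝ) ^ 2 / k)) ∧
    -- (2) The same for adjacency matrices over `F_2`.
    (∀ k r : ℕ, 2 ≤ k →
      |log (adjOrder k r) - ((r / 2 : ℝ) * log 2 + log k)| ≤ 15 * (1 + (r : ℝ) ^ 2 / k)) ∧
    -- (3) Exact growth for `log k ≪ r ≪ k`.
    (∀ r : ℕ → ℕ, Tendsto r atTop atTop → Tendsto (fun k : ℕ => log k / r k) atTop (𝓝 0) →
      Tendsto (fun k : ℕ => (r k : ℝ) / k) atTop (𝓝 0) →
        (∀ (F : Type) [Field F] [Fintype F] (f : F → Bool), (∃ a b, f a ≠ f b) →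
          Tendsto (fun k : ℕ => log (ffOrder f k (r k)) / r k) atTop
            (𝓝 (log (Fintype.card F) / 2))) ∧
        Tendsto (fun k : ℕ => log (adjOrder k (r k)) / r k) atTop (𝓝 (log 2 / 2))) ∧
    -- (4) Upper bounds for all `k` and `r`, and their meaning for the extremal colourings, on
    -- `R(k,k) - 1` vertices: their rank over `F_2` is at least `2 log₂ (R(k,k) / k) - 2`.
    (∀ (F : Type) [Field F] [Fintype F] (f : F → Bool) (k r : ℕ),
      ffOrder f k r ≤ Fintype.card F ^ (r / 2 + 2) * (k - 1)) ∧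
    (∀ k r : ℕ, adjOrder k r ≤ 2 ^ (r / 2 + 1) * (k - 1)) ∧
    (∀ (k : ℕ) (V : Type) [Fintype V] (G : SimpleGraph V) [DecidableRel G.Adj], 2 ≤ k →
      NoMono G k → Fintype.card V + 1 = ramsey k →
        ramsey k ≤ 2 ^ ((G.adjMatrix (ZMod 2)).rank / 2 + 1) * k) := by
  refine ⟨?_, adj_bounds, ?_, ?_, adjOrder_le, ?_⟩
  · intro F _ _
    refine ⟨(Fintype.card F : ℝ) ^ 3 + 2 * log (Fintype.card F) + 5, ?_, ?_⟩
    · have : 0 ≤ log (Fintype.card F : ℝ) := log_natCast_nonneg _
      positivity
    · intro f hf k r hk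
      exact ff_bounds F f hf k r hk
  · intro r hr h1 h2
    refine ⟨?_, ?_⟩
    · intro F _ _ f hf
      refine growth_of_bounds (fun k => ffOrder f k (r k)) r (log (Fintype.card F))
        ((Fintype.card F : ℝ) ^ 3 + 2 * log (Fintype.card F) + 5) hr h1 h2 ?_
      filter_upwards [eventually_ge_atTop 2] with k hk
      exact ff_bounds F f hf k (r k) hk
    · refine growth_of_bounds (fun k => adjOrder k (r k)) r (log 2) 15 hr h1 h2 ?_
      filter_upwards [eventually_ge_atTop 2] with k hk
      exact adj_bounds k (r k) hk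
  · intro F _ _ f k r
    exact ffOrder_le f k r
  · intro k V _ G _ hk hG hV
    have h1 : Fintype.card V ≤ 2 ^ ((G.adjMatrix (ZMod 2)).rank / 2 + 1) * (k - 1) :=
      adj_card_le G k _ (le_of_eq (by congr)) hG
    have h2 : 1 ≤ 2 ^ ((G.adjMatrix (ZMod 2)).rank / 2 + 1) := Nat.one_le_two_pow
    obtain ⟨l, rfl⟩ : ∃ l, k = l + 1 := ⟨k - 1, by omega⟩
    rw [Nat.add_sub_cancel] at h1
    rw [← hV, mul_add, mul_one]
    exact Nat.add_le_add h1 h2

end Pool.Agent.Results.MP_28724c_co.LowRankForms
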