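import Pool.Agent.N920.CC.Asym

/-!
# Randomized communication complexity and discrepancy of Ramsey colourings

A two-colouring of the edges of the complete graph on `V` is given by the graph `G` of its red
edges; `NoMono G k` says that it has no monochromatic `K_k`, and `ramsey k` is `R(k,k)`.
Alice gets a vertex `u`, Bob a vertex `v ≠ u`, and they want to know the colour of `uv`.

* `RandCost G c`: there is a public-coin randomized protocol of cost at most `c` with error
  probability at most `1 / 3` (a uniform choice among `r` deterministic protocols).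
* `RectCost G c`: there is a probability distribution on labelled rectangles `X × Y` such that for
  all `u ≠ v` the rectangle contains `(u, v)` and carries the colour of `uv` with probability at
  least `2 ^ (-c)`, and it contains `(u, v)` and carries the other colour with at most half of this
  probability (relaxed partition bound, zero-communication protocols with abort).
* `Margin G δ`: there is a probability distribution on labelled rectangles such that the first of
  these two probabilities exceeds the second one by at least `δ` for all `u ≠ v`; by the minimax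
  theorem this says that the discrepancy is at least `δ` for every distribution of pairs.
* `rccOrder k c`: the largest number of vertices of a colouring with `RandCost G c` without
  monochromatic `K_k`.
-/

set_option autoImplicit false

namespace Pool.Agent.Results.MP_28724c_co.RandomizedCommunication

open Filter Topology Real Pool.Agent.N920.CC

open Pool.Agent.N920.TW (NoMono ramsey)

/-- **Main result.** -/
theorem result :
    -- (1) upper bounds for the number of vertices
    (∀ (V : Type) [Fintype V] (G : SimpleGraph V) (k : ℕ), 1 ≤ k → NoMono G k →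
      (∀ c : ℕ, 1 ≤ c → RandCost G c →
        log (Fintype.card V) ≤ 400 * c * log (2 + (k : ℝ) / c) ^ 2) ∧
      (∀ c : ℕ, 1 ≤ c → RectCost G c →
        log (Fintype.card V) ≤ 200 * c * log (2 + (k : ℝ) / c) ^ 2) ∧
      (∀ δ : ℝ, 0 < δ → δ ≤ 1 → Margin G δ →
        log (Fintype.card V) ≤ 1200 / δ * log (2 + δ * k) ^ 2)) ∧
    -- (2) all colourings of at most `2 ^ (c - 1)` vertices have cost at most `c`, and the largest
    -- number of vertices for `c ≤ k / 2` is at least `2 ^ (c - 1)`
    (∀ (V : Type) [Fintype V] (G : SimpleGraph V) (c : ℕ), 1 ≤ c →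
      Fintype.card V ≤ 2 ^ (c - 1) → RandCost G c) ∧
    (∀ (V : Type) (G : SimpleGraph V) (c : ℕ), RandCost G c → RectCost G (c + 1)) ∧
    (∀ k c : ℕ, 1 ≤ c → 2 * c ≤ k → 2 ^ (c - 1) ≤ rccOrder k c ∧ rccOrder k c < ramsey k ∧
      log (rccOrder k c) ≤ 400 * c * log (2 + (k : ℝ) / c) ^ 2) ∧
    -- (3) growth rates: for `c = ε k` the rate is between `ε log 2` and `400 ε log (2 + 2 / ε) ^ 2`
    (∀ ε : ℝ, 0 < ε → ε ≤ 1 / 2 → ∀ k : ℕ, 1 ≤ ε * k →
      (ε - 2 / k) * log 2 ≤ log (rccOrder k ⌊ε * k⌋₊) / k ∧
      log (rccOrder k ⌊ε * k⌋₊) / k ≤ 400 * ε * log (2 + 2 / ε) ^ 2) ∧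
    -- (4) for `c = k ^ θ` the largest number of vertices is `exp (k ^ (θ + o(1)))`
    (∀ θ : ℝ, 0 < θ → θ < 1 →
      Tendsto (fun k : ℕ => log (log (rccOrder k ⌊(k : ℝ) ^ θ⌋₊)) / log k) atTop (𝓝 θ)) ∧
    -- (5) Ramsey colourings have linear randomized communication complexity, and discrepancy
    -- at most of order `1 / k`
    (∀ (θ : ℝ) (V : Type) [Fintype V] (G : SimpleGraph V) (k : ℕ), 0 < θ → 1 ≤ k → NoMono G k →
      exp (θ * k) ≤ Fintype.card V →
      (∀ c : ℕ, 1 ≤ c → RandCost G c → θ * k ≤ 500000 * c * log (2 + 1 / θ) ^ 2) ∧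
      (∀ c : ℕ, 1 ≤ c → RectCost G c → θ * k ≤ 250000 * c * log (2 + 1 / θ) ^ 2) ∧
      (∀ δ : ℝ, 0 < δ → δ ≤ 1 → Margin G δ → θ * k * δ ≤ 1500000 * log (2 + 1 / θ) ^ 2)) ∧
    -- (6) the extremal colourings, on `R(k,k) - 1` vertices
    (∀ (V : Type) [Fintype V] (G : SimpleGraph V) (k : ℕ), 1 ≤ k → NoMono G k →
      Fintype.card V + 1 = ramsey k →
      RandCost G (2 * k + 1) ∧ (∀ c : ℕ, 1 ≤ c → RandCost G c → (k : ℝ) ≤ 15000000 * c) ∧
      (∀ c : ℕ, 1 ≤ c → RectCost G c → (k : ℝ) ≤ 7500000 * c) ∧
      (∀ δ : ℝ, 0 < δ → δ ≤ 1 → Margin G δ → δ ≤ 45000000 / k)) := by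
  refine ⟨?_, ?_, fun V G c h => h.rectCost, ?_, rates, exponent, ?_, ?_⟩
  · intro V _ G k hk hG
    exact ⟨fun c hc h => upper_rand hk hc hG.1 hG.2 h, fun c hc h => upper_rect hk hc hG.1 hG.2 h,
      fun δ h0 h1 h => upper_margin hk h0 h1 hG.1 hG.2 h⟩
  · intro V _ G c hc h
    obtain ⟨m, rfl⟩ : ∃ m, c = m + 1 := ⟨c - 1, by omega⟩
    exact randCost_of_card G m (by simpa using h)
  · intro k c hc hk
    exact ⟨rcc_lower k c hc hk, rcc_lt_ramsey k c hk hc, rcc_upper k c (by omega) hc⟩
  · intro θ V _ G k hθ hk hG hn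
    exact ⟨fun c hc h => linear_rand hθ hk hc hG hn h, fun c hc h => linear_rect hθ hk hc hG hn h,
      fun δ h0 h1 h => linear_margin hθ hk h0 h1 hG hn h⟩
  · intro V _ G k hk hG hn
    exact extremal hk hG hn

end Pool.Agent.Results.MP_28724c_co.RandomizedCommunication
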