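import Pool.Agent.N920.RW.Asym

/-!
# Diagonal Ramsey numbers of colourings of given rank-width and given linear rank-width

A two-colouring of the edges of the complete graph on `V` is given by the graph `G` of its red
edges; `NoMono G k` says that it has no monochromatic `K_k`. The cut-rank `cutRank G S` is the rank
over `F_2` of the part of the adjacency matrix with rows in `S` and columns outside `S`.
`LinRankWidthLE G r`: the linear rank-width is at most `r` (for some linear order of the vertices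
all initial segments have cut-rank at most `r`). `RankWidthLE G r`: the rank-width is at most `r`
(`V` can be built from single vertices by disjoint unions of two sets, all sets on the way having
cut-rank at most `r`). `lrwOrder k r` and `rwOrder k r` are the largest numbers of vertices of such
colourings without monochromatic `K_k`; `ramsey k` is `R(k,k)`.
-/

namespace Pool.Agent.Results.MP_28724c_co.RankWidthGrowth

open Filter Topology Real Pool.Agent.N920.RW

open Pool.Agent.N920.TW (NoMono ramsey)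

/-- **Main result.** -/
theorem result :
    -- (1) Linear rank-width: exact growth. The largest number of vertices is `2 ^ ((1 + o(1)) r)`
    -- for all `r` with `log k log log k ≪ r ≪ k`.
    (∀ r : ℕ → ℕ, Tendsto r atTop atTop →
      Tendsto (fun k : ℕ => log k * log (log k) / r k) atTop (𝓝 0) →
      Tendsto (fun k : ℕ => (r k : ℝ) / k) atTop (𝓝 0) →
        Tendsto (fun k : ℕ => logb 2 (lrwOrder k (r k)) / r k) atTop (𝓝 1)) ∧
    -- (2) Rank-width: exact growth. For rank-width at most `k ^ θ`, `0 < θ < 1`, `1 / θ` not an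
    -- integer, the largest number of vertices is `2 ^ ((⌊1 / θ⌋ + o(1)) k ^ θ)`.
    (∀ θ : ℝ, 0 < θ → θ < 1 → (∀ j : ℕ, θ * j ≠ 1) →
      Tendsto (fun k : ℕ => logb 2 (rwOrder k ⌊(k : ℝ) ^ θ⌋₊) / (k : ℝ) ^ θ) atTop
        (𝓝 (⌊1 / θ⌋₊ : ℝ))) ∧
    -- (3) Bounds for all `k` and `r`; for `r = ε k` they put the growth rates (to base 2) of both
    -- numbers between `ε - ε ^ 2 / 2` and `ε`, and for `r = k` the lower bound is `k / 2`, as for
    -- unrestricted colourings (Erdős).
    (∀ k r : ℕ, 2 ≤ k → 1 ≤ r →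
      (r : ℝ) + logb 2 k - r * (r + 1) / (2 * k) - 5 ≤ logb 2 (lrwOrder k r) ∧
      logb 2 (lrwOrder k r) ≤ r + 35 * (√(r * log k * log (r + 1)) + log k * log (r + 1)) ∧
      lrwOrder k r ≤ rwOrder k r ∧ rwOrder k r < ramsey k) ∧
    (∃ C : ℝ, 0 < C ∧ ∀ k r : ℕ, 2 ≤ k → 1 ≤ r →
      logb 2 (rwOrder k r) ≤ r + C * √k ∧
      -- (4) In particular the extremal colourings, on `R(k,k) - 1` vertices, have rank-width at
      -- least `log₂ R(k,k) - O(√k)`.
      ∀ (V : Type) [Fintype V] (G : SimpleGraph V), NoMono G k → Fintype.card V + 1 = ramsey k →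
        RankWidthLE G r → logb 2 (ramsey k) ≤ r + C * √k) ∧
    -- (5) The finite bounds behind (2).
    (∀ j : ℕ, ∃ C : ℝ, 0 < C ∧ ∀ k r : ℕ, (rwOrder k r : ℝ) ≤
      (2 : ℝ) ^ (j * (r + 1)) * exp (C * (k : ℝ) ^ ((1 : ℝ) / ((j : ℝ) + 1)))) ∧
    (∀ j k r s : ℕ, 1 ≤ j → 1 ≤ s → 1 ≤ r → s ^ j < k →
      j * (r - 4 - (r : ℝ) ^ 2 / (2 * s)) ≤ logb 2 (rwOrder k r)) := by
  obtain ⟨hl1, hl2⟩ := log_two_bounds
  have hlpos : 0 < log 2 := by linarith
  refine ⟨lrw_exact, ?_, ?_, ?_, rw_upper, ?_⟩
  · intro θ h0 hθ hne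
    obtain ⟨g1, g2, g3⟩ := Pool.Agent.N920.TW.floor_facts θ h0 hθ hne
    exact rw_exact θ h0 _ g1 g2 g3
  · intro k r hk hr
    refine ⟨?_, ?_, lrwOrder_le_rwOrder k r hr, rwOrder_lt_ramsey k r hk⟩
    · rw [logb, logb, le_div_iff₀ hlpos]
      exact lrw_lower k r hk
    · have h1 := lrw_upper k r hk hr
      rw [logb, div_le_iff₀ hlpos]
      refine h1.trans ?_
      have h2 : 0 ≤ √(r * log k * log (r + 1)) + log k * log (r + 1) := by
        have e1 : 0 ≤ log (k : ℝ) := log_natCast_nonneg k
        have e2 : 0 ≤ log ((r : ℝ) + 1) := log_nonneg (by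
          have : (0 : ℝ) ≤ r := Nat.cast_nonneg _
          linarith)
        positivity
      nlinarith
  · obtain ⟨C, hC, h⟩ := rw_upper_one
    refine ⟨C + 1, by positivity, fun k r hk hr => ?_⟩
    have h1 := h k r hk hr
    have hsq : 1 ≤ √(k : ℝ) := by
      rw [Real.one_le_sqrt]
      exact_mod_cast (by omega : 1 ≤ k)
    refine ⟨by nlinarith, ?_⟩
    intro V _ G hG hV hr
    have h2 := le_rwOrder hG hr
    have h3 : 1 ≤ rwOrder k r := (lrwOrder_pos k r hk).trans (lrwOrder_le_rwOrder k r ‹_›)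
    have h4 : (ramsey k : ℝ) ≤ 2 * rwOrder k r := by
      have : ramsey k ≤ 2 * rwOrder k r := by omega
      exact_mod_cast this
    have h5 : (0 : ℝ) < rwOrder k r := by exact_mod_cast h3
    have h6 : (0 : ℝ) < ramsey k := by
      have : 0 < ramsey k := by omega
      exact_mod_cast this
    have h7 := logb_le_logb_of_le (b := 2) (by norm_num) h6 h4
    rw [logb_mul (by norm_num) h5.ne', logb_self_eq_one (by norm_num)] at h7
    nlinarith
  · intro j k r s hj hs hr hsk
    rw [logb, le_div_iff₀ hlpos]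
    exact rw_lower j k r s hj hs hr hsk

end Pool.Agent.Results.MP_28724c_co.RankWidthGrowth
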