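import Pool.Agent.N920.TW.Asym

/-!
# Diagonal Ramsey numbers of colourings of given twin-width and of given module-width

A two-colouring of the edges of the complete graph on `V` is given by the graph `G` of its red
edges; `NoMono G k` says that it has no monochromatic `K_k`. `TwinWidthLE G t` says that `G` (and
then also `Gᶜ`) has twin-width at most `t`, `ModuleWidthLE G c` that it has module-width at most
`c` (module-width `c` and clique-width `cw` satisfy `c ≤ cw ≤ 2 c`). `twOrder k t` and `mwOrder k c`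
are the largest numbers of vertices of such colourings without monochromatic `K_k`, and `ramsey k`
is the diagonal Ramsey number `R(k,k)`; so without a bound for the width the largest number is
`ramsey k - 1`.
-/

namespace Pool.Agent.Results.MP_28724c_co.TwinWidthGrowth

open Filter Topology Pool.Agent.N920.TW

/-- **Main result.** -/
theorem result :
    -- (1) Exact growth. If the width is at most `exp (k ^ θ)` with `0 < θ < 1` and `1 / θ` not an
    -- integer, then the logarithm of the largest number of vertices is `(⌊1 / θ⌋ + o(1)) k ^ θ`.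
    (∀ θ : ℝ, 0 < θ → θ < 1 → (∀ j : ℕ, θ * j ≠ 1) →
      Tendsto (fun k : ℕ => Real.log (twOrder k ⌊Real.exp ((k : ℝ) ^ θ)⌋₊) / (k : ℝ) ^ θ) atTop
        (𝓝 (⌊1 / θ⌋₊ : ℝ)) ∧
      Tendsto (fun k : ℕ => Real.log (mwOrder k ⌊Real.exp ((k : ℝ) ^ θ)⌋₊) / (k : ℝ) ^ θ) atTop
        (𝓝 (⌊1 / θ⌋₊ : ℝ))) ∧
    -- (2) Width at most `exp (l k)`: the growth rate is exactly `l` for `l ≤ (log 2) / 2`.
    (∀ l : ℝ, 0 < l → l ≤ Real.log 2 / 2 →
      Tendsto (fun k : ℕ => Real.log (twOrder k ⌊Real.exp (l * k)⌋₊) / k) atTop (𝓝 l) ∧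
      Tendsto (fun k : ℕ => Real.log (mwOrder k ⌊Real.exp (l * k)⌋₊) / k) atTop (𝓝 l)) ∧
    -- (3) Every width: up to a factor `exp (O (√k))` the largest number is the smaller one of the
    -- width and of the unrestricted number `R(k,k) - 1`.
    (∃ C : ℝ, 0 < C ∧ ∀ k : ℕ, 2 ≤ k →
      (∀ t : ℕ, min (t + 2) (ramsey k - 1) ≤ twOrder k t ∧ twOrder k t ≤ ramsey k - 1 ∧
        (twOrder k t : ℝ) ≤ 2 * ((t : ℝ) + 1) * Real.exp (C * Real.sqrt k)) ∧
      (∀ c : ℕ, 1 ≤ c → min c (ramsey k - 1) ≤ mwOrder k c ∧ mwOrder k c ≤ ramsey k - 1 ∧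
        (mwOrder k c : ℝ) ≤ 2 * (c : ℝ) * Real.exp (C * Real.sqrt k))) ∧
    -- (4) In particular every extremal colouring, on `R(k,k) - 1` vertices, has twin-width and
    -- module-width at least `R(k,k) exp (- O (√k)) - 1`.
    (∃ C : ℝ, 0 < C ∧ ∀ k : ℕ, 2 ≤ k → ∀ (V : Type) [Fintype V] (G : SimpleGraph V), NoMono G k →
      Fintype.card V + 1 = ramsey k → ∀ t : ℕ,
        (Pool.Agent.Y422.TW.TwinWidthLE G t →
          (ramsey k : ℝ) * Real.exp (-(C * Real.sqrt k)) ≤ (t : ℝ) + 1) ∧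
        (ModuleWidthLE G t → (ramsey k : ℝ) * Real.exp (-(C * Real.sqrt k)) ≤ (t : ℝ) + 1)) ∧
    -- (5) The finite bounds behind (1).
    (∀ j : ℕ, ∃ C : ℝ, 0 < C ∧ ∀ k w : ℕ,
      (twOrder k w : ℝ) ≤
        (2 * ((w : ℝ) + 1)) ^ j * Real.exp (C * (k : ℝ) ^ ((1 : ℝ) / ((j : ℝ) + 1))) ∧
      (mwOrder k w : ℝ) ≤
        (2 * (w : ℝ)) ^ j * Real.exp (C * (k : ℝ) ^ ((1 : ℝ) / ((j : ℝ) + 1)))) ∧
    (∀ j k w : ℕ, 1 ≤ j → 2 ≤ w → (2 * Nat.log 2 (w + 2) + 1) ^ j < k →
      ((w : ℝ) / 2) ^ j ≤ twOrder k w ∧ ((w : ℝ) / 2) ^ j ≤ mwOrder k w) := by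
  obtain ⟨C1, hC1, h1⟩ := upper_one_tw
  obtain ⟨C2, hC2, h2⟩ := upper_one_mw
  refine ⟨?_, ?_, ?_, ?_, ?_, ?_⟩
  · intro θ h0 hθ hne
    obtain ⟨g1, g2, g3⟩ := floor_facts θ h0 hθ hne
    exact ⟨growth_tw θ h0 _ g1 g2 g3, growth_mw θ h0 _ g1 g2 g3⟩
  · intro l h0 hl
    exact ⟨rate_tw l h0 hl, rate_mw l h0 hl⟩
  · refine ⟨max C1 C2, lt_max_of_lt_left hC1, fun k hk => ⟨fun t => ⟨min_le_twOrder k t hk, ?_, ?_⟩,
      fun c hc => ⟨min_le_mwOrder k c hk hc, ?_, ?_⟩⟩⟩
    · have := twOrder_lt_ramsey k t hk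
      omega
    · refine (h1 k t).trans (mul_le_mul_of_nonneg_left (Real.exp_le_exp.2 ?_) (by positivity))
      exact mul_le_mul_of_nonneg_right (le_max_left _ _) (Real.sqrt_nonneg _)
    · have := mwOrder_lt_ramsey k c hk
      omega
    · refine (h2 k c).trans (mul_le_mul_of_nonneg_left (Real.exp_le_exp.2 ?_) (by positivity))
      exact mul_le_mul_of_nonneg_right (le_max_right _ _) (Real.sqrt_nonneg _)
  · refine ⟨max C1 C2 + 2, by positivity, fun k hk V _ G hG hV t => ?_⟩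
    have hk1 : (1 : ℝ) ≤ Real.sqrt k := by
      rw [Real.one_le_sqrt]
      exact_mod_cast (by omega : 1 ≤ k)
    have key : ∀ C : ℝ, C ≤ max C1 C2 →
        (Fintype.card V : ℝ) ≤ 2 * ((t : ℝ) + 1) * Real.exp (C * Real.sqrt k) →
        (ramsey k : ℝ) * Real.exp (-((max C1 C2 + 2) * Real.sqrt k)) ≤ (t : ℝ) + 1 := by
      intro C hC h
      have hV' : (ramsey k : ℝ) = Fintype.card V + 1 := by exact_mod_cast hV.symm
      have e1 : Real.exp (C * Real.sqrt k) ≤ Real.exp (max C1 C2 * Real.sqrt k) :=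
        Real.exp_le_exp.2 (mul_le_mul_of_nonneg_right hC (Real.sqrt_nonneg _))
      have e2 : (1 : ℝ) ≤ Real.exp (max C1 C2 * Real.sqrt k) :=
        Real.one_le_exp (mul_nonneg (hC1.le.trans (le_max_left _ _)) (Real.sqrt_nonneg _))
      have e3 : (3 : ℝ) ≤ Real.exp (2 * Real.sqrt k) := by
        have := Real.add_one_le_exp (2 * Real.sqrt k)
        linarith
      have ht : (0 : ℝ) ≤ t := Nat.cast_nonneg t
      have e4 : (ramsey k : ℝ) ≤ 3 * (((t : ℝ) + 1) * Real.exp (max C1 C2 * Real.sqrt k)) := by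
        rw [hV']
        have f1 := mul_le_mul_of_nonneg_left e1 (show (0 : ℝ) ≤ 2 * ((t : ℝ) + 1) by positivity)
        have f2 : (1 : ℝ) ≤ ((t : ℝ) + 1) * Real.exp (max C1 C2 * Real.sqrt k) := by nlinarith
        linarith
      have e5 : Real.exp ((max C1 C2 + 2) * Real.sqrt k) =
          Real.exp (max C1 C2 * Real.sqrt k) * Real.exp (2 * Real.sqrt k) := by
        rw [← Real.exp_add]
        congr 1
        ring
      rw [Real.exp_neg, ← div_eq_mul_inv, div_le_iff₀ (Real.exp_pos _), e5]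
      have f3 : (0 : ℝ) ≤ ((t : ℝ) + 1) * Real.exp (max C1 C2 * Real.sqrt k) := by positivity
      have f4 := mul_le_mul_of_nonneg_right e3 f3
      linarith
    refine ⟨fun h3 => ?_, fun h3 => ?_⟩
    · refine key C1 (le_max_left _ _) (le_trans ?_ (h1 k t))
      exact_mod_cast le_twOrder hG h3
    · refine key C2 (le_max_right _ _) (le_trans (?_ : _ ≤ (mwOrder k t : ℝ)) ((h2 k t).trans ?_))
      · exact_mod_cast le_mwOrder hG h3
      · refine mul_le_mul_of_nonneg_right ?_ (Real.exp_pos _).le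
        linarith
  · intro j
    obtain ⟨A, hA, ha⟩ := upper_tw j
    obtain ⟨B, hB, hb⟩ := upper_mw j
    refine ⟨max A B, lt_max_of_lt_left hA, fun k w => ⟨?_, ?_⟩⟩
    · refine twOrder_le (by positivity) (fun V _ G g1 g2 => (ha V G w k g1 g2).trans ?_)
      refine mul_le_mul_of_nonneg_left (Real.exp_le_exp.2 ?_) (by positivity)
      exact mul_le_mul_of_nonneg_right (le_max_left _ _) (by positivity)
    · refine mwOrder_le (by positivity) (fun V _ G g1 g2 => (hb V G w k g1 g2).trans ?_)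
      refine mul_le_mul_of_nonneg_left (Real.exp_le_exp.2 ?_) (by positivity)
      exact mul_le_mul_of_nonneg_right (le_max_right _ _) (by positivity)
  · intro j k w hj hw hk
    refine ⟨?_, ?_⟩
    · refine le_trans (pow_le_pow_left₀ (by positivity) ?_ _) (lower_tw j k w hj hk)
      linarith
    · refine lower_mw j k w hj hw (lt_of_le_of_lt ?_ hk)
      have := Nat.log_mono_right (b := 2) (show w ≤ w + 2 by omega)
      exact Nat.pow_le_pow_left (by omega) _

end Pool.Agent.Results.MP_28724c_co.TwinWidthGrowth
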